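import Pool.Agent.helper3.T6R.Defs

set_option autoImplicit false

/-!
# T6, T6R: the final theorem on the upper bounds (both signs), from the targets `UB_stmt`, `UBR_stmt`
-/

namespace Pool.Agent.T6R

open Finset NumberField Pool.Agent.helper3.FT Pool.Agent.helper47.RA Pool.Agent.T5 Pool.Agent.T6

open Classical in
/-- **BA**: `∑ #Cl(ℚ(√D))[5] ≤ C N` over the fundamental discriminants of each sign with `|D| < N` -/
def BA_stmt : Prop :=
    ∃ C : ℝ, ∀ f : ℤ → ℕ,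
      (∀ (K : Type) [Field K] [NumberField K], Module.finrank ℚ K = 2 →
        f (NumberField.discr K) =
          Nat.card {x : ClassGroup (NumberField.RingOfIntegers K) // x ^ 5 = 1}) →
      ∀ N : ℕ,
        (∑ D ∈ (Finset.Ioo (0 : ℤ) (N : ℤ)).filter (fun D : ℤ =>
              (D % 4 = 1 ∧ D ≠ 1 ∧ Squarefree D) ∨
              (∃ m : ℤ, D = 4 * m ∧ (m % 4 = 2 ∨ m % 4 = 3) ∧ Squarefree m)),
            (f D : ℝ) ≤ C * N) ∧
        (∑ D ∈ (Finset.Ioo (-(N : ℤ)) (0 : ℤ)).filter (fun D : ℤ =>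
              (D % 4 = 1 ∧ D ≠ 1 ∧ Squarefree D) ∨
              (∃ m : ℤ, D = 4 * m ∧ (m % 4 = 2 ∨ m % 4 = 3) ∧ Squarefree m)),
            (f D : ℝ) ≤ C * N)

/-- the upper bounds, both signs -/
theorem BA_of (hU : UB_stmt) (hR : UBR_stmt) : BA_stmt := by
  classical
  obtain ⟨C₁, hC₁, hU⟩ := hU
  obtain ⟨C₂, hC₂, hR⟩ := hR
  refine ⟨max C₁ C₂, fun f hf N => ⟨?_, ?_⟩⟩
  · refine (hR f hf N _ fun D hD => ?_).trans
      (mul_le_mul_of_nonneg_right (le_max_right _ _) (Nat.cast_nonneg _))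
    rw [Finset.mem_filter, Finset.mem_Ioo] at hD
    exact ⟨hD.2, hD.1.1, by rw [abs_of_pos hD.1.1]; exact hD.1.2⟩
  · refine (hU f hf N _ fun D hD => ?_).trans
      (mul_le_mul_of_nonneg_right (le_max_left _ _) (Nat.cast_nonneg _))
    rw [Finset.mem_filter, Finset.mem_Ioo] at hD
    exact ⟨hD.2, hD.1.2, by rw [abs_of_neg hD.1.2]; omega⟩

end Pool.Agent.T6R
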